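import Mathlib
import Pool.Agent.H542R2.MC.All

set_option autoImplicit false

/-!
Formulas as circuits in which every gate is read at most once.
-/

namespace Pool.Agent.W939.FR

open Finset H542.MC

/-- Formulas with hardwired bits. -/
inductive Tm (V : Type) (n : ℕ) : Type
  | leaf : Fin n → Tm V n
  | node : Bool → Bool ⊕ V → Bool ⊕ V → Tm V n → Tm V n → Tm V n

variable {V : Type} {n : ℕ}

/-- number of gates -/
def Tm.gates : Tm V n → ℕ
  | .leaf _ => 0
  | .node _ _ _ l r => l.gates + r.gates + 1

/-- value -/
def Tm.val (y : V → Bool) (x : Fin n → Bool) : Tm V n → Bool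
  | .leaf i => x i
  | .node op na nb l r =>
    if op = true then xor (l.val y x) (lv y na) && xor (r.val y x) (lv y nb)
    else xor (l.val y x) (lv y na) || xor (r.val y x) (lv y nb)

/-- the wire of the root if the gates start at number `o` -/
def Tm.root : Tm V n → ℕ → ℕ
  | .leaf i, _ => i.val
  | .node _ _ _ l r, o => n + (o + l.gates + r.gates)

/-- the formula is placed at the gates `o, o + 1, ...` of `g` -/
def Tm.At (g : ℕ → PG V) : Tm V n → ℕ → Prop
  | .leaf _, _ => True
  | .node op na nb l r, o => l.At g o ∧ r.At g (o + l.gates) ∧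
      g (o + l.gates + r.gates) = ⟨op, l.root o, r.root (o + l.gates), na, nb⟩

theorem Tm.At.congr {g g' : ℕ → PG V} : ∀ {t : Tm V n} {o : ℕ},
    t.At g o → (∀ j, o ≤ j → j < o + t.gates → g j = g' j) → t.At g' o
  | .leaf _, _, _, _ => trivial
  | .node op na nb l r, o, ⟨h1, h2, h3⟩, h => by
    refine ⟨h1.congr fun j h4 h5 => h j h4 ?_, h2.congr fun j h4 h5 => h j ?_ ?_, ?_⟩
    · simp only [Tm.gates]; omega
    · omega
    · simp only [Tm.gates]; omega
    · rw [← h _ (by omega) (by simp only [Tm.gates]; omega)]
      exact h3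

theorem Tm.exists_at (d : PG V) : ∀ (t : Tm V n) (o : ℕ), ∃ g : ℕ → PG V, t.At g o ∧
    ∀ j, (j < o ∨ o + t.gates ≤ j) → g j = d
  | .leaf _, o => ⟨fun _ => d, trivial, fun _ _ => rfl⟩
  | .node op na nb l r, o => by
    obtain ⟨g1, h1, h2⟩ := Tm.exists_at d l o
    obtain ⟨g2, h3, h4⟩ := Tm.exists_at d r (o + l.gates)
    refine ⟨fun j => if j < o + l.gates then g1 j else
      if j = o + l.gates + r.gates then ⟨op, l.root o, r.root (o + l.gates), na, nb⟩ else g2 j,
      ⟨?_, ?_, ?_⟩, ?_⟩
    · refine h1.congr fun j h5 h6 => ?_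
      simp only [if_pos h6]
    · refine h3.congr fun j h5 h6 => ?_
      simp only [if_neg (show ¬ j < o + l.gates by omega),
        if_neg (show ¬ j = o + l.gates + r.gates by omega)]
    · simp only [if_neg (show ¬ o + l.gates + r.gates < o + l.gates by omega), if_true]
    · intro j hj
      simp only [Tm.gates] at hj
      by_cases h5 : j < o + l.gates
      · simp only [if_pos h5]
        exact h2 j (by omega)
      · simp only [if_neg h5, if_neg (show ¬ j = o + l.gates + r.gates by omega)]
        exact h4 j (by omega)

theorem wg_mono (g : ℕ → PG V) (y : V → Bool) (x : Fin n → Bool) (k a : ℕ) (ha : a < n + k) :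
    ∀ m, MConv.wg g y x (k + m) a = MConv.wg g y x k a
  | 0 => rfl
  | m + 1 => by
    have ih := wg_mono g y x k a ha m
    show (if a = n + (k + m) then _ else MConv.wg g y x (k + m) a) = _
    rw [if_neg (by omega), ih]

theorem Tm.root_lt : ∀ (t : Tm V n) (o : ℕ), t.root o < n + (o + t.gates)
  | .leaf i, o => by have := i.2; simp only [Tm.root, Tm.gates]; omega
  | .node _ _ _ l r, o => by simp only [Tm.root, Tm.gates]; omega

theorem wg_input (g : ℕ → PG V) (y : V → Bool) (x : Fin n → Bool) (i : Fin n) (k : ℕ) :
    MConv.wg g y x k i.val = x i := by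
  have h := wg_mono g y x 0 i.val (by have := i.2; omega) k
  rw [Nat.zero_add] at h
  rw [h]
  show (if h : i.val < n then x ⟨i.val, h⟩ else false) = x i
  rw [dif_pos i.2]

theorem Tm.eval_at (g : ℕ → PG V) (y : V → Bool) (x : Fin n → Bool) :
    ∀ (t : Tm V n) (o : ℕ), t.At g o → ∀ k, o + t.gates ≤ k →
      MConv.wg g y x k (t.root o) = t.val y x
  | .leaf i, o, _, k, _ => wg_input g y x i k
  | .node op na nb l r, o, ⟨h1, h2, h3⟩, k, hk => by
    have h4 := Tm.eval_at g y x l o h1 (o + l.gates + r.gates) (by omega)
    have h5 := Tm.eval_at g y x r (o + l.gates) h2 (o + l.gates + r.gates) (by omega)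
    simp only [Tm.gates] at hk
    obtain ⟨m, rfl⟩ := Nat.exists_eq_add_of_le hk
    have h6 : (Tm.node op na nb l r).root o = n + (o + l.gates + r.gates) := rfl
    rw [h6]
    have h7 := wg_mono g y x (o + l.gates + r.gates + 1) (n + (o + l.gates + r.gates))
      (by omega) m
    have e1 : o + (l.gates + r.gates + 1) + m = o + l.gates + r.gates + 1 + m := by omega
    rw [e1, h7]
    show (if n + (o + l.gates + r.gates) = n + (o + l.gates + r.gates) then
      (g (o + l.gates + r.gates)).val y (MConv.wg g y x (o + l.gates + r.gates)) else _) = _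
    rw [if_pos rfl, h3]
    simp only [PG.val, Tm.val, h4, h5]

/-- the address of an input of a gate -/
def adr (G : PG V) (i : Bool) : ℕ := if i = true then G.b else G.a

theorem Tm.valid_at (g : ℕ → PG V) : ∀ (t : Tm V n) (o : ℕ), t.At g o →
    ∀ j, o ≤ j → j < o + t.gates → ∀ i, adr (g j) i < n + j
  | .leaf _, o, _, j, h1, h2, _ => by simp only [Tm.gates] at h2; omega
  | .node op na nb l r, o, ⟨h1, h2, h3⟩, j, hj1, hj2, i => by
    simp only [Tm.gates] at hj2
    by_cases c1 : j < o + l.gates
    · exact Tm.valid_at g l o h1 j hj1 c1 i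
    by_cases c2 : j < o + l.gates + r.gates
    · exact Tm.valid_at g r (o + l.gates) h2 j (by omega) c2 i
    have c3 : j = o + l.gates + r.gates := by omega
    subst c3
    rw [h3]
    have e1 := l.root_lt o
    have e2 := r.root_lt (o + l.gates)
    cases i
    · show l.root o < _
      omega
    · show r.root (o + l.gates) < _
      omega

theorem Tm.root_cases : ∀ (t : Tm V n) (o : ℕ),
    t.root o < n ∨ (1 ≤ t.gates ∧ t.root o = n + (o + t.gates - 1))
  | .leaf i, o => Or.inl i.2
  | .node _ _ _ l r, o => Or.inr ⟨by simp only [Tm.gates]; omega, by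
      simp only [Tm.root, Tm.gates]; omega⟩

theorem Tm.range_at (g : ℕ → PG V) : ∀ (t : Tm V n) (o : ℕ), t.At g o →
    ∀ j, o ≤ j → j < o + t.gates → ∀ i, n ≤ adr (g j) i →
      n + o ≤ adr (g j) i ∧ adr (g j) i + 1 < n + (o + t.gates)
  | .leaf _, o, _, j, h1, h2, _, _ => by simp only [Tm.gates] at h2; omega
  | .node op na nb l r, o, ⟨h1, h2, h3⟩, j, hj1, hj2, i, hn => by
    simp only [Tm.gates] at hj2 ⊢
    by_cases c1 : j < o + l.gates
    · have := Tm.range_at g l o h1 j hj1 c1 i hn
      omega
    by_cases c2 : j < o + l.gates + r.gates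
    · have := Tm.range_at g r (o + l.gates) h2 j (by omega) c2 i hn
      omega
    have c3 : j = o + l.gates + r.gates := by omega
    subst c3
    rw [h3] at hn ⊢
    have e1 := l.root_cases o
    have e2 := r.root_cases (o + l.gates)
    cases i
    · change n ≤ l.root o at hn
      show n + o ≤ l.root o ∧ l.root o + 1 < _
      omega
    · change n ≤ r.root (o + l.gates) at hn
      show n + o ≤ r.root (o + l.gates) ∧ r.root (o + l.gates) + 1 < _
      omega

theorem Tm.once_at (g : ℕ → PG V) : ∀ (t : Tm V n) (o : ℕ), t.At g o →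
    ∀ j j', o ≤ j → j < o + t.gates → o ≤ j' → j' < o + t.gates → ∀ i i',
      adr (g j) i = adr (g j') i' → n ≤ adr (g j) i → j = j' ∧ i = i'
  | .leaf _, o, _, j, _, h1, h2, _, _, _, _, _, _ => by simp only [Tm.gates] at h2; omega
  | .node op na nb l r, o, ⟨h1, h2, h3⟩, j, j', hj1, hj2, hj1', hj2', i, i', he, hn => by
    simp only [Tm.gates] at hj2 hj2'
    have hn' : n ≤ adr (g j') i' := he ▸ hn
    have e1 := l.root_cases o
    have e2 := r.root_cases (o + l.gates)
    -- the address read by the root
    have key : ∀ i, n ≤ adr (g (o + l.gates + r.gates)) i →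
        adr (g (o + l.gates + r.gates)) i =
          if i = true then n + (o + l.gates + r.gates - 1) else n + (o + l.gates - 1) := by
      intro i hi
      rw [h3] at hi ⊢
      cases i
      · change n ≤ l.root o at hi
        show l.root o = n + (o + l.gates - 1)
        omega
      · change n ≤ r.root (o + l.gates) at hi
        show r.root (o + l.gates) = n + (o + l.gates + r.gates - 1)
        omega
    have kr : ∀ i, n ≤ adr (g (o + l.gates + r.gates)) i → i = true → 1 ≤ r.gates := by
      rintro i hi rfl
      rw [h3] at hi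
      change n ≤ r.root (o + l.gates) at hi
      omega
    have kl : ∀ i, n ≤ adr (g (o + l.gates + r.gates)) i → i = false → 1 ≤ l.gates := by
      rintro i hi rfl
      rw [h3] at hi
      change n ≤ l.root o at hi
      omega
    rcases Nat.lt_or_ge j (o + l.gates) with c1 | c1
    · have r1 := Tm.range_at g l o h1 j hj1 c1 i hn
      rcases Nat.lt_or_ge j' (o + l.gates) with d1 | d1
      · exact Tm.once_at g l o h1 j j' hj1 c1 hj1' d1 i i' he hn
      · rcases Nat.lt_or_ge j' (o + l.gates + r.gates) with d2 | d2
        · have r2 := Tm.range_at g r (o + l.gates) h2 j' d1 d2 i' hn'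
          omega
        · have d3 : j' = o + l.gates + r.gates := by omega
          subst d3
          have k1 := key i' hn'
          have k2 := kr i' hn'
          have k3 := kl i' hn'
          cases i' <;> simp at k1 k2 k3 <;> omega
    · rcases Nat.lt_or_ge j (o + l.gates + r.gates) with c2 | c2
      · have r1 := Tm.range_at g r (o + l.gates) h2 j c1 c2 i hn
        rcases Nat.lt_or_ge j' (o + l.gates) with d1 | d1
        · have r2 := Tm.range_at g l o h1 j' hj1' d1 i' hn'
          omega
        · rcases Nat.lt_or_ge j' (o + l.gates + r.gates) with d2 | d2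
          · exact Tm.once_at g r (o + l.gates) h2 j j' c1 c2 d1 d2 i i' he hn
          · have d3 : j' = o + l.gates + r.gates := by omega
            subst d3
            have k1 := key i' hn'
            have k2 := kr i' hn'
            have k3 := kl i' hn'
            cases i' <;> simp at k1 k2 k3 <;> omega
      · have c3 : j = o + l.gates + r.gates := by omega
        subst c3
        have k1 := key i hn
        have k2 := kr i hn
        have k3 := kl i hn
        rcases Nat.lt_or_ge j' (o + l.gates) with d1 | d1
        · have r2 := Tm.range_at g l o h1 j' hj1' d1 i' hn'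
          cases i <;> simp at k1 k2 k3 <;> omega
        · rcases Nat.lt_or_ge j' (o + l.gates + r.gates) with d2 | d2
          · have r2 := Tm.range_at g r (o + l.gates) h2 j' d1 d2 i' hn'
            cases i <;> simp at k1 k2 k3 <;> omega
          · have d3 : j' = o + l.gates + r.gates := by omega
            subst d3
            refine ⟨rfl, ?_⟩
            have k1' := key i' hn'
            have k2' := kr i' hn'
            have k3' := kl i' hn'
            cases i <;> cases i' <;> simp at k1 k2 k3 k1' k2' k3' ⊢ <;> omega

/-- Every gate is read at most once. -/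
def Once {s w : ℕ} (n : ℕ) (z : Bits s w → Bool) : Prop :=
  ∀ (j j' : Fin s) (i i' : Bool), addr z j i = addr z j' i' → n ≤ addr z j i →
    j = j' ∧ i = i'

/-- descriptions of formulas with hardwired bits -/
theorem conv_tree {s w : ℕ} (hn : 1 ≤ n) (t : Tm V n) (h1 : 1 ≤ t.gates) (hs : t.gates ≤ s)
    (hw : n + s ≤ 2 ^ w) : ∃ σ : Bits s w → Bool ⊕ V, ∀ y : V → Bool,
      Valid n (fun b => lv y (σ b)) ∧ Once n (fun b => lv y (σ b)) ∧
      ∀ x : Fin n → Bool, output (fun b => lv y (σ b)) x = t.val y x := by
  obtain ⟨g, hg, hd⟩ := t.exists_at (⟨true, 0, 0, .inl false, .inl false⟩ : PG V) (s - t.gates)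
  have hval : ∀ j < s, ∀ i, adr (g j) i < n + j := by
    intro j hj i
    by_cases c : j < s - t.gates
    · rw [hd j (Or.inl c)]
      cases i
      · show 0 < _
        omega
      · show 0 < _
        omega
    · exact t.valid_at g _ hg j (by omega) (by omega) i
  have hlt : ∀ j < s, (g j).a < 2 ^ w ∧ (g j).b < 2 ^ w := by
    intro j hj
    have a1 := hval j hj false
    have a2 := hval j hj true
    have b1 : (g j).a < n + j := a1
    have b2 : (g j).b < n + j := a2
    omega
  have haddr : ∀ (y : V → Bool) (j : Fin s) (i : Bool),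
      addr (fun b : Bits s w => lv y (MConv.sg g b)) j i = adr (g j) i := by
    intro y j i
    have h2 := hlt j.val j.isLt
    exact MConv.addr_sg g y j i (by cases i; exacts [h2.1, h2.2])
  refine ⟨MConv.sg g, fun y => ⟨?_, ?_, fun x => ?_⟩⟩
  · intro j i
    rw [haddr]
    exact hval j j.isLt i
  · intro j j' i i' he hge
    rw [haddr] at he hge
    rw [haddr] at he
    have big : ∀ (j : Fin s) (i : Bool), n ≤ adr (g j) i → s - t.gates ≤ j.val := by
      intro j i h
      by_contra hc
      rw [hd j (Or.inl (by omega))] at h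
      cases i
      · change n ≤ 0 at h
        omega
      · change n ≤ 0 at h
        omega
    have k1 := big j i hge
    have k2 := big j' i' (he ▸ hge)
    have h5 := t.once_at g _ hg j j' k1 (by omega) k2 (by omega) i i' he hge
    exact ⟨Fin.ext h5.1, h5.2⟩
  · unfold output
    rw [MConv.wires_sg g y x hlt s le_rfl]
    have h3 := t.eval_at g y x _ hg s (by omega)
    rcases t.root_cases (s - t.gates) with h4 | ⟨-, h4⟩
    · exfalso
      cases t with
      | leaf i => simp only [Tm.gates] at h1; omega
      | node op na nb l r =>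
        simp only [Tm.root] at h4
        omega
    · rw [← h3, h4]
      congr 1
      omega

end Pool.Agent.W939.FR
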