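import Mathlib
import Pool.Agent.W939.FR.Tree

set_option autoImplicit false

/-!
A formula for the parity of the hardwired bits in the blocks whose pattern the input has.
-/

namespace Pool.Agent.W939.FR

open Finset H542.MC

variable {V : Type} {n : ℕ}

/-- the constant false -/
def ffT (i : Fin n) : Tm V n := .node true (.inl false) (.inl true) (.leaf i) (.leaf i)

theorem ffT_val (i : Fin n) (y : V → Bool) (x : Fin n → Bool) : (ffT i).val y x = false := by
  simp [ffT, Tm.val, lv]

theorem ffT_gates (i : Fin n) : (ffT i : Tm V n).gates = 1 := rfl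

/-- XOR -/
def xorT (A B : Tm V n) : Tm V n :=
  .node false (.inl false) (.inl false)
    (.node true (.inl false) (.inl true) A B) (.node true (.inl true) (.inl false) A B)

theorem xorT_val (A B : Tm V n) (y : V → Bool) (x : Fin n → Bool) :
    (xorT A B).val y x = xor (A.val y x) (B.val y x) := by
  simp only [xorT, Tm.val, lv, if_true, Bool.false_eq_true, if_false]
  cases A.val y x <;> cases B.val y x <;> rfl

theorem xorT_gates (A B : Tm V n) : (xorT A B).gates = 2 * A.gates + 2 * B.gates + 3 := by
  simp only [xorT, Tm.gates]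
  ring

/-- balanced XOR of a list of formulas -/
theorem bal_xor (i : Fin n) (c : ℕ) (hc : 1 ≤ c) : ∀ (k : ℕ) (l : List (Tm V n)),
    l.length ≤ 2 ^ k → (∀ t ∈ l, 1 ≤ t.gates ∧ t.gates ≤ c) →
    ∃ T : Tm V n, 1 ≤ T.gates ∧ T.gates + 1 ≤ 4 ^ k * (c + 1) ∧
      ∀ (y : V → Bool) (x : Fin n → Bool),
        T.val y x = (l.map fun t => t.val y x).foldr xor false
  | 0, l, h1, h2 => by
    match l, h1, h2 with
    | [], _, _ => exact ⟨ffT i, by rw [ffT_gates], by rw [ffT_gates]; omega,
        fun y x => by rw [ffT_val]; rfl⟩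
    | [t], _, h2 =>
      have h3 := h2 t (by simp)
      exact ⟨t, h3.1, by omega, fun y x => by simp⟩
    | _ :: _ :: _, h1, _ => simp at h1
  | k + 1, l, h1, h2 => by
    obtain ⟨A, a1, a2, a3⟩ := bal_xor i c hc k (l.take (2 ^ k)) (by simp)
      (fun t ht => h2 t (List.mem_of_mem_take ht))
    obtain ⟨B, b1, b2, b3⟩ := bal_xor i c hc k (l.drop (2 ^ k)) (by
      rw [List.length_drop]; rw [pow_succ] at h1; omega)
      (fun t ht => h2 t (List.mem_of_mem_drop ht))
    refine ⟨xorT A B, by rw [xorT_gates]; omega, ?_, fun y x => ?_⟩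
    · rw [xorT_gates, pow_succ]
      nlinarith
    · rw [xorT_val, a3, b3]
      conv_rhs => rw [← List.take_append_drop (2 ^ k) l, List.map_append]
      generalize (l.take (2 ^ k)).map (fun t => t.val y x) = u
      generalize (l.drop (2 ^ k)).map (fun t => t.val y x) = v
      induction u with
      | nil => simp
      | cons a u ih =>
        simp only [List.cons_append, List.foldr_cons, ← ih, Bool.xor_assoc]

/-- parity of a sum -/
theorem foldr_xor {α : Type} (c : α → ℕ) : ∀ l : List α,
    (l.map fun p => decide (Odd (c p))).foldr xor false = decide (Odd (l.map c).sum)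
  | [] => by simp
  | a :: l => by
    simp only [List.map_cons, List.foldr_cons, List.sum_cons, foldr_xor c l]
    by_cases h1 : Odd (c a) <;> by_cases h2 : Odd (l.map c).sum <;>
      simp [h1, h2, Nat.odd_add]
    exact Nat.not_odd_iff_even.1 h2

variable {g M : ℕ}

/-- parity of the hardwired bits of a block -/
def parT (i : Fin n) (p : Blk n g) : List (Fin M) → Tm (Blk n g × Fin M) n
  | [] => ffT i
  | j :: l => .node false (.inr (p, j)) (.inl false) (parT i p l) (ffT i)

theorem parT_gates (i : Fin n) (p : Blk n g) : ∀ l : List (Fin M),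
    (parT i p l).gates = 1 + 2 * l.length
  | [] => rfl
  | j :: l => by
    simp only [parT, Tm.gates, parT_gates i p l, ffT_gates, List.length_cons]
    ring

theorem parT_val (i : Fin n) (p : Blk n g) (y : Blk n g × Fin M → Bool) (x : Fin n → Bool) :
    ∀ l : List (Fin M), (parT i p l).val y x = (l.map fun j => y (p, j)).foldr xor false
  | [] => ffT_val i y x
  | j :: l => by
    simp only [parT, Tm.val, ffT_val, lv, Bool.false_eq_true, if_false, List.map_cons,
      List.foldr_cons, parT_val i p y x l, Bool.xor_false, Bool.or_false]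
    exact Bool.xor_comm _ _

/-- conjunction with literals -/
def conjT (R : Finset (Fin n)) (t : Tm V n) : List (Fin n) → Tm V n
  | [] => t
  | i :: l => .node true (.inl false) (.inl (decide (i ∉ R))) (conjT R t l) (.leaf i)

theorem conjT_gates (R : Finset (Fin n)) (t : Tm V n) : ∀ l : List (Fin n),
    (conjT R t l).gates = t.gates + l.length
  | [] => rfl
  | j :: l => by
    simp only [conjT, Tm.gates, conjT_gates R t l, List.length_cons]
    ring

theorem conjT_val (R : Finset (Fin n)) (t : Tm V n) (y : V → Bool) (x : Fin n → Bool) :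
    ∀ l : List (Fin n), (conjT R t l).val y x =
      (t.val y x && decide (∀ i ∈ l, (x i = true ↔ i ∈ R)))
  | [] => by simp [conjT]
  | i :: l => by
    simp only [conjT, Tm.val, lv, if_true, conjT_val R t y x l, Bool.xor_false]
    by_cases h1 : ∀ j ∈ l, (x j = true ↔ j ∈ R) <;> by_cases h2 : i ∈ R <;> cases h3 : x i <;>
      simp [h1, h2, h3]

/-- A formula which computes `parV`. -/
theorem prog_tree (n g M : ℕ) (hn : 1 ≤ n) (hN : 1 ≤ Fintype.card (Blk n g)) :
    ∃ t : Tm (Blk n g × Fin M) n, 1 ≤ t.gates ∧
      t.gates + 1 ≤ 4 * Fintype.card (Blk n g) ^ 2 * (2 * M + g + 2) ∧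
      ∀ (y : Blk n g × Fin M → Bool) (x : Fin n → Bool), t.val y x = parV x y := by
  classical
  obtain ⟨i⟩ : Nonempty (Fin n) := ⟨⟨0, hn⟩⟩
  obtain ⟨k, hk1, hk2⟩ : ∃ k, Fintype.card (Blk n g) ≤ 2 ^ k ∧
      4 ^ k ≤ 4 * Fintype.card (Blk n g) ^ 2 := by
    obtain ⟨N, hN'⟩ : ∃ N, N = Fintype.card (Blk n g) := ⟨_, rfl⟩
    rw [← hN'] at hN ⊢
    refine ⟨Nat.log 2 N + 1, (Nat.lt_pow_succ_log_self (by norm_num) N).le, ?_⟩
    have h1 : 2 ^ Nat.log 2 N ≤ N := Nat.pow_log_le_self 2 (by omega)
    have h2 : 4 ^ (Nat.log 2 N + 1) = 4 * (2 ^ Nat.log 2 N) ^ 2 := by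
      rw [show (4 : ℕ) = 2 ^ 2 by norm_num, ← pow_mul, ← pow_mul, ← pow_add]
      congr 1
      ring
    rw [h2]
    exact Nat.mul_le_mul_left _ (Nat.pow_le_pow_left h1 2)
  -- the formula of a block
  let tp : Blk n g → Tm (Blk n g × Fin M) n := fun p =>
    conjT p.1.2 (parT i p (univ : Finset (Fin M)).toList) p.1.1.toList
  have tp_gates : ∀ p, (tp p).gates = 1 + 2 * M + g := by
    intro p
    show (conjT _ _ _).gates = _
    rw [conjT_gates, parT_gates, length_toList, length_toList, card_univ, Fintype.card_fin,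
      p.2.1]
  let cnt : (Blk n g × Fin M → Bool) → (Fin n → Bool) → Blk n g → ℕ := fun y x p =>
    if Has x p then ∑ j : Fin M, (if y (p, j) = true then 1 else 0) else 0
  have tp_val : ∀ p (y : Blk n g × Fin M → Bool) (x : Fin n → Bool),
      (tp p).val y x = decide (Odd (cnt y x p)) := by
    intro p y x
    show (conjT _ _ _).val y x = _
    rw [conjT_val, parT_val]
    have e1 : decide (∀ i ∈ p.1.1.toList, (x i = true ↔ i ∈ p.1.2)) = decide (Has x p) := by
      unfold Has
      simp only [mem_toList]
    have e2 : ((univ : Finset (Fin M)).toList.map fun j => y (p, j)).foldr xor false =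
        decide (Odd (∑ j : Fin M, (if y (p, j) = true then 1 else 0))) := by
      rw [← Finset.sum_map_toList, ← foldr_xor]
      congr 1
      refine List.map_congr_left fun j _ => ?_
      cases y (p, j) <;> simp
    rw [e1, e2]
    show _ = decide (Odd (if Has x p then _ else 0))
    by_cases h : Has x p
    · simp [h]
    · simp [h]
  obtain ⟨T, h1, h2, h3⟩ := bal_xor (V := Blk n g × Fin M) i (1 + 2 * M + g) (by omega) k
    ((univ : Finset (Blk n g)).toList.map tp)
    (by rw [List.length_map, length_toList, card_univ]; exact hk1)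
    (by
      intro t ht
      obtain ⟨p, -, rfl⟩ := List.mem_map.1 ht
      rw [tp_gates]
      omega)
  refine ⟨T, h1, ?_, fun y x => ?_⟩
  · refine h2.trans ?_
    have e : 1 + 2 * M + g + 1 = 2 * M + g + 2 := by ring
    rw [e]
    exact Nat.mul_le_mul_right _ hk2
  · rw [h3, List.map_map]
    have e3 : ((fun t => t.val y x) ∘ tp) = fun p => decide (Odd (cnt y x p)) := by
      funext p
      exact tp_val p y x
    rw [e3, foldr_xor, Finset.sum_map_toList]
    unfold parV
    have e4 : (univ.filter fun v : Blk n g × Fin M => Has x v.1 ∧ y v = true).card =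
        ∑ p, cnt y x p := by
      rw [card_filter, Fintype.sum_prod_type]
      refine sum_congr rfl fun p _ => ?_
      show _ = if Has x p then _ else 0
      by_cases h : Has x p
      · simp [h]
      · simp [h]
    rw [e4]

end Pool.Agent.W939.FR
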