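import Mathlib
import Pool.Agent.W939.FR.Prog

set_option autoImplicit false

/-!
The descriptions with `s` gates are the De Morgan formulas of size at most `s + 1`.
-/

namespace Pool.Agent.W939.FR

open Finset H542.MC

variable {n s w : ℕ}

/-- De Morgan formulas: AND and OR nodes, the leaves are constants and literals (`lit i b` is
the variable `x i`, negated if `b = true`). -/
inductive DM (n : ℕ) : Type
  | const : Bool → DM n
  | lit : Fin n → Bool → DM n
  | and : DM n → DM n → DM n
  | or : DM n → DM n → DM n

/-- The value of a De Morgan formula. -/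
def DM.eval (x : Fin n → Bool) : DM n → Bool
  | .const b => b
  | .lit i b => xor (x i) b
  | .and F G => F.eval x && G.eval x
  | .or F G => F.eval x || G.eval x

/-- The size of a De Morgan formula: the number of leaves which are literals. -/
def DM.size : DM n → ℕ
  | .const _ => 0
  | .lit _ _ => 1
  | .and F G => F.size + G.size
  | .or F G => F.size + G.size

theorem wires_mono (z : Bits s w → Bool) (x : Fin n → Bool) (k a : ℕ) (ha : a < n + k) :
    ∀ m, wires z x (k + m) a = wires z x k a
  | 0 => rfl
  | m + 1 => by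
    have ih := wires_mono z x k a ha m
    show (if h : k + m < s ∧ a = n + (k + m) then _ else wires z x (k + m) a) = _
    rw [dif_neg (by omega), ih]

theorem wires_input (z : Bits s w → Bool) (x : Fin n → Bool) (k : ℕ) (i : Fin n) :
    wires z x k i.val = x i := by
  have h := wires_mono z x 0 i.val (by have := i.2; omega) k
  rw [Nat.zero_add] at h
  rw [h]
  show (if h : i.val < n then x ⟨i.val, h⟩ else false) = x i
  rw [dif_pos i.2]

theorem wires_gate (z : Bits s w → Bool) (hz : Valid n z) (x : Fin n → Bool) (j : Fin s) :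
    wires z x s (n + j) = gateVal z j (wires z x s) := by
  obtain ⟨m, hm⟩ := Nat.exists_eq_add_of_lt j.isLt
  have e1 : wires z x s (n + j) = wires z x (j + 1) (n + j) := by
    have h := wires_mono z x (j.val + 1) (n + j.val) (by omega) m
    rw [← h]
    congr 1
    omega
  have e2 : ∀ i, wires z x s (addr z j i) = wires z x j (addr z j i) := by
    intro i
    have h := wires_mono z x j.val (addr z j i) (hz j i) (m + 1)
    rw [← h]
    congr 1
  rw [e1]
  show (if h : j.val < s ∧ n + j.val = n + j.val then gateVal z ⟨j, h.1⟩ (wires z x j) else _) = _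
  rw [dif_pos ⟨j.isLt, rfl⟩]
  unfold gateVal
  rw [e2, e2]

theorem unfold_aux (z : Bits s w → Bool) (hz : Valid n z) (ho : Once n z) :
    ∀ (m : ℕ) (j : Fin s), j.val = m → ∃ R : Finset (Fin s),
      (∀ g ∈ R, g ≤ j) ∧ (∀ g ∈ R, g ≠ j → ∃ j' ∈ R, ∃ i, addr z j' i = n + g) ∧
      ∀ b : Bool, ∃ F : DM n, F.size ≤ R.card + 1 ∧
        ∀ x : Fin n → Bool, F.eval x = xor (wires z x s (n + j)) b := by
  intro m
  induction m using Nat.strong_induction_on with
  | _ m ih =>
    intro j hj
    -- the inputs
    have key : ∀ i : Bool, ∃ R : Finset (Fin s),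
        (∀ g ∈ R, g < j ∧ g.val + n ≤ addr z j i) ∧
        (∀ g ∈ R, (g.val + n ≠ addr z j i) → ∃ j' ∈ R, ∃ i', addr z j' i' = n + g) ∧
        ∀ b : Bool, ∃ F : DM n, F.size ≤ R.card + 1 ∧
          ∀ x : Fin n → Bool, F.eval x = xor (wires z x s (addr z j i)) b := by
      intro i
      have h1 := hz j i
      rcases Nat.lt_or_ge (addr z j i) n with h2 | h2
      · refine ⟨∅, by simp, by simp, fun b => ⟨.lit ⟨addr z j i, h2⟩ b, by simp [DM.size],
          fun x => ?_⟩⟩
        have := wires_input z x s ⟨addr z j i, h2⟩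
        simp only at this
        rw [this]
        rfl
      · obtain ⟨R, r1, r2, r3⟩ := ih (addr z j i - n) (by omega)
          ⟨addr z j i - n, by have := j.isLt; omega⟩ rfl
        refine ⟨R, fun g hg => ?_, fun g hg hne => ?_, fun b => ?_⟩
        · have := r1 g hg
          rw [Fin.le_def] at this
          rw [Fin.lt_def]
          simp only at this
          omega
        · exact r2 g hg (fun e => hne (by rw [e]; simp only; omega))
        · obtain ⟨F, f1, f2⟩ := r3 b
          refine ⟨F, f1, fun x => ?_⟩
          rw [f2]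
          congr 2
          simp only
          omega
    obtain ⟨R0, a1, a2, a3⟩ := key false
    obtain ⟨R1, b1, b2, b3⟩ := key true
    have hdisj : Disjoint R0 R1 := by
      rw [Finset.disjoint_iff_ne]
      by_contra hcon
      have hne : (R0 ∩ R1).Nonempty := by
        push Not at hcon
        obtain ⟨g, hg, g', hg', e⟩ := hcon
        exact ⟨g, mem_inter.2 ⟨hg, e ▸ hg'⟩⟩
      obtain ⟨g, hg, hmax⟩ := (R0 ∩ R1).exists_max_image (fun g => g.val) hne
      have g0 := (mem_inter.1 hg).1
      have g1 := (mem_inter.1 hg).2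
      by_cases c0 : g.val + n = addr z j false
      · by_cases c1 : g.val + n = addr z j true
        · have := (ho j j false true (c0.symm.trans c1) (by omega)).2
          exact absurd this (by decide)
        · obtain ⟨j', hj', i', e⟩ := b2 g g1 c1
          have := (ho j j' false i' (by omega) (by omega)).1
          have h3 := (b1 j' hj').1
          rw [← this] at h3
          exact lt_irrefl _ h3
      · obtain ⟨j', hj', i', e⟩ := a2 g g0 c0
        by_cases c1 : g.val + n = addr z j true
        · have := (ho j j' true i' (by omega) (by omega)).1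
          have h3 := (a1 j' hj').1
          rw [← this] at h3
          exact lt_irrefl _ h3
        · obtain ⟨j'', hj'', i'', e'⟩ := b2 g g1 c1
          have h4 := (ho j' j'' i' i'' (by omega) (by omega)).1
          have h5 := hmax j' (mem_inter.2 ⟨hj', h4 ▸ hj''⟩)
          have h6 := hz j' i'
          omega
    have hj0 : j ∉ R0 := fun h => lt_irrefl _ (a1 j h).1
    have hj1 : j ∉ R1 := fun h => lt_irrefl _ (b1 j h).1
    have hcard : (insert j (R0 ∪ R1)).card = R0.card + R1.card + 1 := by
      rw [card_insert_of_notMem (by simp [hj0, hj1]), card_union_of_disjoint hdisj]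
    refine ⟨insert j (R0 ∪ R1), ?_, ?_, fun b => ?_⟩
    · intro g hg
      rcases mem_insert.1 hg with h | h
      · exact h.le
      rcases mem_union.1 h with h | h
      · exact (a1 g h).1.le
      · exact (b1 g h).1.le
    · intro g hg hne
      rcases mem_insert.1 hg with h | h
      · exact absurd h hne
      rcases mem_union.1 h with h | h
      · by_cases c : g.val + n = addr z j false
        · exact ⟨j, mem_insert_self _ _, false, by omega⟩
        · obtain ⟨j', hj', i', e⟩ := a2 g h c
          exact ⟨j', mem_insert_of_mem (mem_union_left _ hj'), i', e⟩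
      · by_cases c : g.val + n = addr z j true
        · exact ⟨j, mem_insert_self _ _, true, by omega⟩
        · obtain ⟨j', hj', i', e⟩ := b2 g h c
          exact ⟨j', mem_insert_of_mem (mem_union_right _ hj'), i', e⟩
    · obtain ⟨F, f1, f2⟩ := a3 (xor (z (.inr (.inl (j, false)))) b)
      obtain ⟨G, g1, g2⟩ := b3 (xor (z (.inr (.inl (j, true)))) b)
      refine ⟨if z (.inl j) = b then .or F G else .and F G, ?_, fun x => ?_⟩
      · rw [hcard]
        split_ifs <;> simp only [DM.size] <;> omega
      · rw [wires_gate z hz, gateVal]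
        cases h0 : z (.inl j) <;> cases b <;>
          simp only [DM.eval, f2, g2, if_true, if_false, Bool.true_eq_false, Bool.false_eq_true,
            Bool.xor_false, Bool.xor_true, Bool.not_and, Bool.not_or, Bool.xor_not]

/-- from formulas to trees without constants -/
theorem tree_aux : ∀ F : DM n, (∃ c, ∀ x, F.eval x = c) ∨
    ∃ (t : Tm Empty n) (b : Bool), t.gates + 1 ≤ F.size ∧ (b = true → t.gates = 0) ∧
      ∀ x, F.eval x = xor (t.val Empty.elim x) b
  | .const c => Or.inl ⟨c, fun _ => rfl⟩
  | .lit i b => Or.inr ⟨.leaf i, b, le_rfl, fun _ => rfl, fun _ => rfl⟩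
  | .and F G => by
    rcases tree_aux F with ⟨c, h1⟩ | ⟨t, b, h1, h2, h3⟩
    · cases c
      · exact Or.inl ⟨false, fun x => by simp [DM.eval, h1]⟩
      · rcases tree_aux G with ⟨c', g1⟩ | ⟨t', b', g1, g2, g3⟩
        · exact Or.inl ⟨c', fun x => by simp [DM.eval, h1, g1]⟩
        · exact Or.inr ⟨t', b', by simp only [DM.size]; omega, g2,
            fun x => by simp [DM.eval, h1, g3]⟩
    · rcases tree_aux G with ⟨c', g1⟩ | ⟨t', b', g1, g2, g3⟩
      · cases c'
        · exact Or.inl ⟨false, fun x => by simp [DM.eval, g1]⟩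
        · exact Or.inr ⟨t, b, by simp only [DM.size]; omega, h2,
            fun x => by simp [DM.eval, g1, h3]⟩
      · refine Or.inr ⟨.node true (.inl b) (.inl b') t t', false, ?_, by simp, fun x => ?_⟩
        · simp only [DM.size, Tm.gates]; omega
        · simp [DM.eval, Tm.val, h3, g3, lv]
  | .or F G => by
    rcases tree_aux F with ⟨c, h1⟩ | ⟨t, b, h1, h2, h3⟩
    · cases c
      · rcases tree_aux G with ⟨c', g1⟩ | ⟨t', b', g1, g2, g3⟩
        · exact Or.inl ⟨c', fun x => by simp [DM.eval, h1, g1]⟩
        · exact Or.inr ⟨t', b', by simp only [DM.size]; omega, g2,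
            fun x => by simp [DM.eval, h1, g3]⟩
      · exact Or.inl ⟨true, fun x => by simp [DM.eval, h1]⟩
    · rcases tree_aux G with ⟨c', g1⟩ | ⟨t', b', g1, g2, g3⟩
      · cases c'
        · exact Or.inr ⟨t, b, by simp only [DM.size]; omega, h2,
            fun x => by simp [DM.eval, g1, h3]⟩
        · exact Or.inl ⟨true, fun x => by simp [DM.eval, g1]⟩
      · refine Or.inr ⟨.node false (.inl b) (.inl b') t t', false, ?_, by simp, fun x => ?_⟩
        · simp only [DM.size, Tm.gates]; omega
        · simp [DM.eval, Tm.val, h3, g3, lv]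

/-- Descriptions with `s` gates and formulas of size at most `s + 1`. -/
theorem desc_iff (hn : 1 ≤ n) (hs : 1 ≤ s) (hw : n + s ≤ 2 ^ w) (f : (Fin n → Bool) → Bool) :
    (∃ z : Bits s w → Bool, Valid n z ∧ Once n z ∧ ∀ x, output z x = f x) ↔
      ∃ F : DM n, F.size ≤ s + 1 ∧ ∀ x, F.eval x = f x := by
  constructor
  · rintro ⟨z, h1, h2, h3⟩
    obtain ⟨R, -, -, h4⟩ := unfold_aux z h1 h2 (s - 1) ⟨s - 1, by omega⟩ rfl
    obtain ⟨F, f1, f2⟩ := h4 false
    refine ⟨F, f1.trans ?_, fun x => ?_⟩
    · have := card_le_univ R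
      rw [Fintype.card_fin] at this
      omega
    · rw [f2, ← h3, Bool.xor_false, output]
      congr 1
      simp only
      omega
  · rintro ⟨F, f1, f2⟩
    suffices h : ∃ t : Tm Empty n, 1 ≤ t.gates ∧ t.gates ≤ s ∧
        ∀ x, t.val Empty.elim x = f x by
      obtain ⟨t, t1, t2, t3⟩ := h
      obtain ⟨σ, hσ⟩ := conv_tree (w := w) hn t t1 t2 hw
      obtain ⟨k1, k2, k3⟩ := hσ Empty.elim
      exact ⟨_, k1, k2, fun x => (k3 x).trans (t3 x)⟩
    have i : Fin n := ⟨0, hn⟩
    rcases tree_aux F with ⟨c, h1⟩ | ⟨t, b, h1, h2, h3⟩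
    · refine ⟨.node (!c) (.inl false) (.inl true) (.leaf i) (.leaf i), by simp [Tm.gates],
        by simpa [Tm.gates] using hs, fun x => ?_⟩
      rw [← f2, h1]
      cases c <;> simp [Tm.val, lv]
    · rcases Nat.eq_zero_or_pos t.gates with h0 | h0
      · refine ⟨.node true (.inl b) (.inl b) t t, by simp [Tm.gates],
          by simp only [Tm.gates]; omega, fun x => ?_⟩
        rw [← f2, h3]
        simp [Tm.val, lv]
      · refine ⟨t, h0, by omega, fun x => ?_⟩
        rw [← f2, h3]
        cases b
        · simp
        · exact absurd (h2 rfl) (by omega)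

end Pool.Agent.W939.FR
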