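import Mathlib
import Pool.Agent.W939.FR.Prog

set_option autoImplicit false

/-!
The lower bound for refutations of the statement that a function has a small formula.
-/

namespace Pool.Agent.W939.FR

open Finset H542 H542.MC

variable {s w n : ℕ}

/-- `z` describes a De Morgan formula with `s` AND/OR gates which computes `f` correctly on the
input `x`. -/
def FormulaCorrect (f : (Fin n → Bool) → Bool) (x : Fin n → Bool) (z : Bits s w → Bool) : Prop :=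
  Valid n z ∧ Once n z ∧ output z x = f x

/-- A refutation with `S` lines of the statement that `f` has a De Morgan formula with `s`
AND/OR gates. -/
structure Refutation (s w : ℕ) (f : (Fin n → Bool) → Bool) (a L S : ℕ) where
  line : Fin S → Fml (Bits s w)
  size_le : ∀ j, (line j).size ≤ L
  sound : ∀ j, ∃ (P : Finset (Fin S)) (Q : Finset (Fin n → Bool)), P.card ≤ a ∧ Q.card ≤ a ∧
    (∀ p ∈ P, p < j) ∧ ∀ z, (∀ p ∈ P, (line p).eval z = true) →
      (∀ x ∈ Q, FormulaCorrect f x z) → (line j).eval z = true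
  final : ∃ j, ∀ z, (line j).eval z = false

/-- the deterministic part -/
theorem core (hexpa : ExpaProp) (hflip : FlipProp)
    (τ Cb : ℝ) (hτ : 0 < τ) (hCb : 0 < Cb)
    (hmom : ∀ (ι Jt : Type) [Fintype ι] [DecidableEq ι] [Fintype Jt] [DecidableEq Jt]
      [Nonempty ι] [Nonempty Jt] (ψ : T (ι × Jt) ⊕ Bool),
      ∑ J : ι → Jt, ∑ x : ι × Jt → Bool,
        Real.exp (τ * dep fun y => evs (mv J x y) ψ) ≤
      ((Fintype.card Jt : ℝ) ^ Fintype.card ι * 2 ^ Fintype.card (ι × Jt)) *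
        Real.exp (Cb * leavess ψ / (Fintype.card Jt : ℝ) ^ (5 / 4 : ℝ) + τ))
    (n d M s w a L h S : ℕ) (hn : 1 ≤ n) (hd : 3 * d ≤ n) (hM : 1 ≤ M)
    (hs : 8 * Fintype.card (Blk n (2 * d)) ^ 2 * (M + 2 * d + 4) + 1 ≤ s) (hw : n + s ≤ 2 ^ w)
    (ha : a ≤ 2 ^ d) (hah : 2 * ((a + 1) * h) ≤ 2 ^ d)
    (hS : (S : ℝ) * Real.exp (Cb * L / (M : ℝ) ^ (5 / 4 : ℝ) + τ) < Real.exp (τ * (h + 1)))
    (f : (Fin n → Bool) → Bool) (π : Refutation s w f a L S) : False := by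
  have hne : Nonempty (Blk n (2 * d)) := by
    obtain ⟨S, hS⟩ := exists_subset_card_eq (s := (univ : Finset (Fin n))) (n := 2 * d)
      (by rw [card_univ, Fintype.card_fin]; omega)
    exact ⟨⟨(S, ∅), hS.2, empty_subset _⟩⟩
  obtain ⟨T, hK1, hK2, hK4⟩ := prog_tree n (2 * d) M hn Fintype.card_pos
  have hK3 : T.gates ≤ s := by
    have e1 : 4 * Fintype.card (Blk n (2 * d)) ^ 2 * (2 * M + 2 * d + 2) ≤
        8 * Fintype.card (Blk n (2 * d)) ^ 2 * (M + 2 * d + 4) := by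
      have e2 : 8 * Fintype.card (Blk n (2 * d)) ^ 2 * (M + 2 * d + 4) =
        4 * Fintype.card (Blk n (2 * d)) ^ 2 * (2 * (M + 2 * d + 4)) := by ring
      rw [e2]
      exact Nat.mul_le_mul_left _ (by omega)
    omega
  obtain ⟨σ, hσ⟩ := conv_tree (w := w) hn T hK1 hK3 hw
  have : NeZero M := ⟨by omega⟩
  have hMR : (0 : ℝ) < (M : ℝ) ^ (5 / 4 : ℝ) :=
    Real.rpow_pos_of_pos (by exact_mod_cast hM) _
  obtain ⟨J, x, hdep⟩ := exists_restr (ι := Blk n (2 * d)) (M := M) τ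
    (Real.exp (Cb * L / (M : ℝ) ^ (5 / 4 : ℝ) + τ)) hτ hM L (by
      intro ψ hψ
      have h1 := hmom (Blk n (2 * d)) (Fin M) ψ
      rw [Fintype.card_fin] at h1
      refine h1.trans ?_
      apply mul_le_mul_of_nonneg_left _ (by positivity)
      apply Real.exp_le_exp.mpr
      have e1 : (leavess ψ : ℝ) ≤ (L : ℝ) := by exact_mod_cast hψ
      have e3 : Cb * leavess ψ ≤ Cb * (L : ℝ) := mul_le_mul_of_nonneg_left e1 hCb.le
      have e4 := div_le_div_of_nonneg_right e3 hMR.le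
      linarith) h (fun j => conv σ true (π.line j))
      (fun j => (leavess_conv _ _ _).trans (π.size_le j)) hS
  have hfl := hflip n (2 * d) M J x
  obtain ⟨j, hj⟩ := π.final
  obtain ⟨y, hy⟩ := loc (hexpa n d hd)
    (con := fun v y => parV v (mv J x y) = f v)
    (by
      intro v y y' hyy
      rw [(hfl v).1 y y' hyy])
    (by
      intro v i hi y
      rw [(hfl v).2 i hi y]
      cases parV v (mv J x y) <;> cases f v <;> simp)
    a h ha hah S (fun j y => evs (mv J x y) (conv σ true (π.line j))) hdep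
    (by
      intro j
      obtain ⟨P, Q, hP1, hQ1, hP2, hP3⟩ := π.sound j
      refine ⟨P, Q, hP1, hQ1, hP2, fun y hy hyQ => ?_⟩
      rw [evs_conv, hP3 _ (fun p hp => ?_) (fun v hv => ?_)]
      · rfl
      · have := hy p hp
        rw [evs_conv] at this
        simpa using this
      · refine ⟨(hσ (mv J x y)).1, (hσ (mv J x y)).2.1, ?_⟩
        rw [(hσ (mv J x y)).2.2, hK4]
        exact hyQ v hv) j
  rw [evs_conv, hj] at hy
  exact absurd hy (by decide)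

theorem ev_num (δ γ τ Cb : ℝ) (hδ : 0 < δ) (hγ : 0 < γ) (hτ : 0 < τ) :
    ∃ n0 : ℕ, ∀ n ≥ n0, 1 ≤ n ∧ 2 * (2 * (n : ℝ) + 5) * (2 : ℝ) ^ (δ / 10 * n) ≤ 2 ^ (δ * n) ∧
      4 / 3 ≤ γ * n ∧ 8 / τ * (1 + 6 * Cb + τ) ≤ ((2 : ℝ) ^ (γ * n / 4)) ^ 2 ∧
      8 ≤ (2 : ℝ) ^ (δ / 30 * n) := by
  have hl2 : 0 < Real.log 2 := Real.log_pos (by norm_num)
  -- first: 2(2n+5) ≤ 2^(0.9 δ n)
  have t1 : Filter.Tendsto (fun n : ℕ => (2 : ℝ) ^ (9 / 10 * δ * n) / (n : ℝ)) Filter.atTop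
      Filter.atTop := by
    have h1 : Filter.Tendsto (fun x : ℝ => Real.exp (9 / 10 * δ * Real.log 2 * x) / x ^ (1 : ℝ))
        Filter.atTop Filter.atTop :=
      tendsto_exp_mul_div_rpow_atTop 1 _ (by positivity)
    have h2 := h1.comp tendsto_natCast_atTop_atTop
    refine h2.congr fun n => ?_
    simp only [Function.comp, Real.rpow_one]
    congr 1
    rw [Real.rpow_def_of_pos (by norm_num)]
    congr 1
    ring
  have t2 : Filter.Tendsto (fun n : ℕ => (2 : ℝ) ^ (γ * n / 4)) Filter.atTop Filter.atTop := by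
    have h1 : Filter.Tendsto (fun n : ℕ => Real.exp (γ / 4 * Real.log 2 * (n : ℝ))) Filter.atTop
        Filter.atTop := by
      apply Real.tendsto_exp_atTop.comp
      apply Filter.Tendsto.const_mul_atTop (by positivity)
      exact tendsto_natCast_atTop_atTop
    refine h1.congr fun n => ?_
    rw [Real.rpow_def_of_pos (by norm_num)]
    congr 1
    ring
  obtain ⟨n1, h1⟩ := Filter.eventually_atTop.mp (t1.eventually_ge_atTop 14)
  obtain ⟨n2, h2⟩ := Filter.eventually_atTop.mp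
    (t2.eventually_ge_atTop (max 1 (8 / τ * (1 + 6 * Cb + τ))))
  obtain ⟨n3, h3⟩ := exists_nat_ge (4 / 3 / γ)
  obtain ⟨n5, h5⟩ := exists_nat_ge (90 / δ)
  refine ⟨max (max n1 n2) (max n3 (max n5 1)), fun n hn => ?_⟩
  have hn1 : n1 ≤ n := le_trans (le_trans (le_max_left _ _) (le_max_left _ _)) hn
  have hn2 : n2 ≤ n := le_trans (le_trans (le_max_right _ _) (le_max_left _ _)) hn
  have hn3 : n3 ≤ n := le_trans (le_trans (le_max_left _ _) (le_max_right _ _)) hn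
  have hn6 : max n5 1 ≤ n := le_trans (le_trans (le_max_right _ _) (le_max_right _ _)) hn
  have hn5 : n5 ≤ n := le_trans (le_max_left _ _) hn6
  have hn4 : 1 ≤ n := le_trans (le_max_right _ _) hn6
  have hnR : (1 : ℝ) ≤ n := by exact_mod_cast hn4
  refine ⟨hn4, ?_, ?_, ?_, ?_⟩
  · have e1 := h1 n hn1
    rw [le_div_iff₀ (by linarith)] at e1
    have e2 : 2 * (2 * (n : ℝ) + 5) ≤ (2 : ℝ) ^ (9 / 10 * δ * n) := by linarith
    calc 2 * (2 * (n : ℝ) + 5) * (2 : ℝ) ^ (δ / 10 * n)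
        ≤ (2 : ℝ) ^ (9 / 10 * δ * n) * (2 : ℝ) ^ (δ / 10 * n) :=
          mul_le_mul_of_nonneg_right e2 (by positivity)
      _ = (2 : ℝ) ^ (δ * n) := by
          rw [← Real.rpow_add (by norm_num)]
          congr 1
          ring
  · have e1 : (n3 : ℝ) ≤ n := by exact_mod_cast hn3
    have e2 := h3.trans e1
    rw [div_le_iff₀ hγ] at e2
    linarith
  · have e1 := h2 n hn2
    have e2 : (1 : ℝ) ≤ (2 : ℝ) ^ (γ * n / 4) := (le_max_left _ _).trans e1
    have e3 : 8 / τ * (1 + 6 * Cb + τ) ≤ (2 : ℝ) ^ (γ * n / 4) := (le_max_right _ _).trans e1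
    nlinarith
  · have e1 : 90 / δ ≤ n := h5.trans (by exact_mod_cast hn5)
    rw [div_le_iff₀ hδ] at e1
    calc (8 : ℝ) = (2 : ℝ) ^ (3 : ℝ) := by
          rw [show (3 : ℝ) = ((3 : ℕ) : ℝ) by norm_num, Real.rpow_natCast]
          norm_num
      _ ≤ (2 : ℝ) ^ (δ / 30 * n) := by
          apply Real.rpow_le_rpow_of_exponent_le (by norm_num)
          linarith

theorem main (hexpa : ExpaProp) (hflip : FlipProp)
    (hcard : CardProp) (hnum : NumProp) (δ : ℝ) (hδ : 0 < δ) :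
    ∃ ε : ℝ, 0 < ε ∧ ∃ n0 : ℕ, ∀ n ≥ n0, ∀ s w : ℕ, (2 : ℝ) ^ (δ * n) ≤ s → s ≤ 2 ^ n →
      n + s ≤ 2 ^ w → ∀ (f : (Fin n → Bool) → Bool) (a L S : ℕ), (a : ℝ) ≤ (s : ℝ) ^ ε →
        (L : ℝ) ≤ (s : ℝ) ^ (1 + ε) → Nonempty (Refutation s w f a L S) →
          (2 : ℝ) ^ ((s : ℝ) ^ ε) ≤ S := by
  obtain ⟨τ, Cb, hτ, _, hCb, hmom⟩ := block_moment (5 / 4) (by norm_num) (by norm_num)
  obtain ⟨γ, hγ, hγ3, hγn⟩ := hnum (δ / 30) (by positivity)
  obtain ⟨ε, hε⟩ : ∃ ε, ε = min (1 / 8) (γ / 4) := ⟨_, rfl⟩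
  have hε0 : 0 < ε := by rw [hε]; exact lt_min (by norm_num) (by positivity)
  have hε8 : ε ≤ 1 / 8 := by rw [hε]; exact min_le_left _ _
  have hεγ : ε ≤ γ / 4 := by rw [hε]; exact min_le_right _ _
  obtain ⟨n0, hn0⟩ := ev_num δ γ τ Cb hδ hγ hτ
  refine ⟨ε, hε0, n0, fun n hn s w hs1 hs2 hw f a L S ha hL ⟨π⟩ => ?_⟩
  obtain ⟨hn1, c1, c2, c3, c4⟩ := hn0 n hn
  by_contra hS
  push Not at hS
  have hnR : (1 : ℝ) ≤ n := by exact_mod_cast hn1
  obtain ⟨d, hd⟩ : ∃ d, d = ⌊γ * n⌋₊ := ⟨_, rfl⟩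
  have hd1 : (d : ℝ) ≤ γ * n := by rw [hd]; exact Nat.floor_le (by positivity)
  have hd2 : γ * n < d + 1 := by rw [hd]; exact Nat.lt_floor_add_one _
  have hd3 : 3 * d ≤ n := by
    have : (3 * d : ℝ) ≤ n := by nlinarith
    exact_mod_cast this
  obtain ⟨na, hna⟩ : ∃ na, na = Fintype.card (Blk n (2 * d)) := ⟨_, rfl⟩
  have hna2 : (na : ℝ) ≤ (2 : ℝ) ^ (δ / 30 * n) := by
    rw [hna, hcard]
    apply hγn
    push_cast
    linarith
  have hna1 : 1 ≤ na := by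
    rw [hna, hcard]
    have : 0 < n.choose (2 * d) := Nat.choose_pos (by omega)
    exact Nat.mul_pos this (by positivity)
  obtain ⟨nb, hnb⟩ : ∃ nb, nb = 8 * na ^ 2 := ⟨_, rfl⟩
  have hnb2 : (nb : ℝ) ≤ (2 : ℝ) ^ (δ / 10 * n) := by
    have e1 : (2 : ℝ) ^ (δ / 10 * n) =
        (2 : ℝ) ^ (δ / 30 * n) * ((2 : ℝ) ^ (δ / 30 * n) * (2 : ℝ) ^ (δ / 30 * n)) := by
      rw [← Real.rpow_add (by norm_num), ← Real.rpow_add (by norm_num)]
      congr 1
      ring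
    rw [e1, hnb]
    push_cast
    rw [sq]
    apply mul_le_mul c4 _ (by positivity) (by positivity)
    exact mul_le_mul hna2 hna2 (by positivity) (by positivity)
  have hnb1 : 1 ≤ nb := by
    rw [hnb]
    have := Nat.one_le_pow 2 na hna1
    omega
  have hnbR : (1 : ℝ) ≤ nb := by exact_mod_cast hnb1
  have hsR : (0 : ℝ) < s := lt_of_lt_of_le (by positivity) hs1
  have hdn : (2 * (d : ℝ)) ≤ n := by
    have : (3 * d : ℝ) ≤ n := by exact_mod_cast hd3
    have : (0 : ℝ) ≤ d := by positivity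
    linarith
  -- the size of the blocks
  have k1 : 2 * (2 * (d : ℝ) + 5) * nb ≤ s := by
    calc 2 * (2 * (d : ℝ) + 5) * nb ≤ 2 * (2 * (n : ℝ) + 5) * (2 : ℝ) ^ (δ / 10 * n) := by
          apply mul_le_mul _ hnb2 (by positivity) (by positivity)
          have : (0 : ℝ) ≤ n := by positivity
          linarith
      _ ≤ 2 ^ (δ * n) := c1
      _ ≤ s := hs1
  have k2 : 2 * (2 * d + 5) * nb ≤ s := by exact_mod_cast k1
  obtain ⟨M, hM⟩ : ∃ M, M = s / (2 * nb) := ⟨_, rfl⟩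
  have hM2 : M * (2 * nb) ≤ s := by rw [hM]; exact Nat.div_mul_le_self _ _
  have hM3 : s < 2 * nb * (M + 1) := by rw [hM]; exact Nat.lt_mul_div_succ s (by omega)
  have hM1 : 1 ≤ M := by
    rw [hM, Nat.le_div_iff_mul_le (by omega)]
    nlinarith
  have hMs : nb * (M + 2 * d + 4) + 1 ≤ s := by nlinarith
  have hM4 : (s : ℝ) / (4 * nb) ≤ M := by
    rw [div_le_iff₀ (by positivity)]
    have h1 : (s : ℝ) < 2 * nb * (M + 1) := by exact_mod_cast hM3
    have h2 : (1 : ℝ) ≤ M := by exact_mod_cast hM1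
    nlinarith
  -- a, h
  have hsn : (s : ℝ) ≤ (2 : ℝ) ^ (n : ℝ) := by
    rw [Real.rpow_natCast]
    exact_mod_cast hs2
  have hsε : (s : ℝ) ^ ε ≤ (2 : ℝ) ^ (γ * n / 4) := by
    calc (s : ℝ) ^ ε ≤ ((2 : ℝ) ^ (n : ℝ)) ^ ε := Real.rpow_le_rpow hsR.le hsn hε0.le
      _ = (2 : ℝ) ^ (n * ε) := by rw [← Real.rpow_mul (by norm_num)]
      _ ≤ (2 : ℝ) ^ (γ * n / 4) := by
          apply Real.rpow_le_rpow_of_exponent_le (by norm_num)
          nlinarith
  obtain ⟨X, hX⟩ : ∃ X : ℝ, X = (2 : ℝ) ^ (γ * n / 4) := ⟨_, rfl⟩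
  rw [← hX] at hsε c3
  have hX1 : 1 ≤ X := by
    rw [hX]
    exact Real.one_le_rpow (by norm_num) (by positivity)
  have h2d : X ^ 4 / 2 ≤ (2 : ℝ) ^ d := by
    have e1 : X ^ 4 = (2 : ℝ) ^ (γ * n) := by
      rw [hX, ← Real.rpow_natCast, ← Real.rpow_mul (by norm_num)]
      congr 1
      push_cast
      ring
    rw [e1, ← Real.rpow_natCast 2 d, div_le_iff₀ (by norm_num)]
    have e2 : (2 : ℝ) ^ (d : ℝ) * 2 = (2 : ℝ) ^ ((d : ℝ) + 1) := by
      rw [Real.rpow_add (by norm_num), Real.rpow_one]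
    rw [e2]
    exact Real.rpow_le_rpow_of_exponent_le (by norm_num) hd2.le
  have haX : (a : ℝ) ≤ X := ha.trans hsε
  have ha2 : a ≤ 2 ^ d := by
    have e1 : X ≤ (2 : ℝ) ^ d := by
      rw [hX, ← Real.rpow_natCast]
      apply Real.rpow_le_rpow_of_exponent_le (by norm_num)
      linarith
    have : (a : ℝ) ≤ ((2 ^ d : ℕ) : ℝ) := by
      push_cast
      exact haX.trans e1
    exact_mod_cast this
  obtain ⟨h, hh⟩ : ∃ h, h = 2 ^ d / (2 * (a + 1)) := ⟨_, rfl⟩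
  have hah : 2 * ((a + 1) * h) ≤ 2 ^ d := by
    rw [hh]
    calc 2 * ((a + 1) * (2 ^ d / (2 * (a + 1)))) = 2 ^ d / (2 * (a + 1)) * (2 * (a + 1)) := by
          ring
      _ ≤ _ := Nat.div_mul_le_self _ _
  have hh2 : (2 : ℝ) ^ d < 2 * (a + 1) * (h + 1) := by
    have e1 : 2 ^ d < 2 * (a + 1) * (h + 1) := by
      rw [hh]
      exact Nat.lt_mul_div_succ _ (by omega)
    exact_mod_cast e1
  have hh3 : X ^ 3 / 8 ≤ (h : ℝ) + 1 := by
    have e1 : 2 * ((a : ℝ) + 1) ≤ 4 * X := by linarith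
    have e2 : (0 : ℝ) < h + 1 := by positivity
    have e3 : X ^ 4 / 2 ≤ 4 * X * (h + 1) := by
      refine h2d.trans (hh2.le.trans ?_)
      exact mul_le_mul_of_nonneg_right e1 e2.le
    have e4 : X * (X ^ 3 / 8) ≤ X * ((h : ℝ) + 1) := by nlinarith
    exact le_of_mul_le_mul_left e4 (by linarith)
  -- the moment
  have hLM : (L : ℝ) / (M : ℝ) ^ (5 / 4 : ℝ) ≤ 6 := by
    have hMpos : (0 : ℝ) < M := by exact_mod_cast hM1
    rw [div_le_iff₀ (Real.rpow_pos_of_pos hMpos _)]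
    have e1 : ((s : ℝ) / (4 * nb)) ^ (5 / 4 : ℝ) ≤ (M : ℝ) ^ (5 / 4 : ℝ) :=
      Real.rpow_le_rpow (by positivity) hM4 (by norm_num)
    have e2 : (L : ℝ) ≤ 6 * ((s : ℝ) / (4 * nb)) ^ (5 / 4 : ℝ) := by
      refine hL.trans ?_
      rw [Real.div_rpow hsR.le (by positivity), Real.mul_rpow (by norm_num) (by positivity)]
      rw [mul_div_assoc', le_div_iff₀ (by positivity)]
      have f1 : (nb : ℝ) ^ (5 / 4 : ℝ) ≤ (s : ℝ) ^ (1 / 8 : ℝ) := by
        calc (nb : ℝ) ^ (5 / 4 : ℝ) ≤ ((2 : ℝ) ^ (δ / 10 * n)) ^ (5 / 4 : ℝ) :=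
              Real.rpow_le_rpow (by positivity) hnb2 (by norm_num)
          _ = ((2 : ℝ) ^ (δ * n)) ^ (1 / 8 : ℝ) := by
              rw [← Real.rpow_mul (by norm_num), ← Real.rpow_mul (by norm_num)]
              congr 1
              ring
          _ ≤ (s : ℝ) ^ (1 / 8 : ℝ) := Real.rpow_le_rpow (by positivity) hs1 (by norm_num)
      have f2 : (4 : ℝ) ^ (5 / 4 : ℝ) ≤ 6 := by
        have g1 : ((4 : ℝ) ^ (5 / 4 : ℝ)) ^ (4 : ℕ) = 4 ^ (5 : ℕ) := by
          rw [← Real.rpow_natCast, ← Real.rpow_mul (by norm_num)]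
          norm_num
        by_contra hcon
        push Not at hcon
        have g2 : (6 : ℝ) ^ 4 < ((4 : ℝ) ^ (5 / 4 : ℝ)) ^ 4 :=
          pow_lt_pow_left₀ hcon (by norm_num) (by norm_num)
        rw [g1] at g2
        norm_num at g2
      have hs1' : (1 : ℝ) ≤ s := by
        refine le_trans ?_ hs1
        exact Real.one_le_rpow (by norm_num) (by positivity)
      calc (s : ℝ) ^ (1 + ε) * ((4 : ℝ) ^ (5 / 4 : ℝ) * (nb : ℝ) ^ (5 / 4 : ℝ))
          ≤ (s : ℝ) ^ (1 + ε) * (6 * (s : ℝ) ^ (1 / 8 : ℝ)) := by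
            apply mul_le_mul_of_nonneg_left _ (by positivity)
            exact mul_le_mul f2 f1 (by positivity) (by norm_num)
        _ = 6 * (s : ℝ) ^ (1 + ε + 1 / 8) := by
            rw [Real.rpow_add hsR (1 + ε) (1 / 8)]
            ring
        _ ≤ 6 * (s : ℝ) ^ (5 / 4 : ℝ) := by
            apply mul_le_mul_of_nonneg_left _ (by norm_num)
            exact Real.rpow_le_rpow_of_exponent_le hs1' (by linarith)
    exact e2.trans (mul_le_mul_of_nonneg_left e1 (by norm_num))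
  refine core hexpa hflip τ Cb hτ hCb hmom n d M s w a L h S hn1 hd3 hM1
    (by rw [← hna, ← hnb]; exact hMs) hw ha2 hah ?_ f π
  have e1 : (S : ℝ) < Real.exp X := by
    refine hS.trans_le ?_
    calc (2 : ℝ) ^ ((s : ℝ) ^ ε) ≤ (Real.exp 1) ^ ((s : ℝ) ^ ε) := by
          apply Real.rpow_le_rpow (by norm_num) _ (by positivity)
          have := Real.add_one_le_exp (1 : ℝ)
          linarith
      _ = Real.exp ((s : ℝ) ^ ε) := by rw [← Real.exp_mul, one_mul]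
      _ ≤ Real.exp X := Real.exp_le_exp.mpr hsε
  calc (S : ℝ) * Real.exp (Cb * L / (M : ℝ) ^ (5 / 4 : ℝ) + τ)
      < Real.exp X * Real.exp (Cb * L / (M : ℝ) ^ (5 / 4 : ℝ) + τ) :=
        mul_lt_mul_of_pos_right e1 (Real.exp_pos _)
    _ = Real.exp (X + (Cb * L / (M : ℝ) ^ (5 / 4 : ℝ) + τ)) := (Real.exp_add _ _).symm
    _ ≤ Real.exp (τ * (h + 1)) := by
        apply Real.exp_le_exp.mpr
        have g1 : Cb * L / (M : ℝ) ^ (5 / 4 : ℝ) ≤ 6 * Cb := by
          rw [mul_div_assoc]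
          nlinarith
        have g2 : X + 6 * Cb + τ ≤ τ * (X ^ 3 / 8) := by
          rw [div_mul_eq_mul_div, div_le_iff₀ hτ] at c3
          have g3 : X * (8 * (1 + 6 * Cb + τ)) ≤ X * (X ^ 2 * τ) :=
            mul_le_mul_of_nonneg_left c3 (by linarith)
          nlinarith
        have g4 : τ * (X ^ 3 / 8) ≤ τ * ((h : ℝ) + 1) := mul_le_mul_of_nonneg_left hh3 hτ.le
        linarith

end Pool.Agent.W939.FR
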